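import Pool.Agent.Y786.EP.Weighted

/-!
The weighted Brouwer inequality, deduced from the Brouwer inequality for weights in `[0,1]`.
-/

set_option autoImplicit false

namespace Pool.Agent.Q280.WB

open scoped BigOperators
open Pool.Agent.Helper93.EP Pool.Agent.Y786.EP

/-- the rearrangement step -/
lemma rearr {n : ℕ} (mu : Fin n → ℝ) (hmu : Antitone mu) (c : Fin n → ℝ) (k : ℕ) (hk : k < n)
    (h0 : ∀ a, 0 ≤ c a) (h1 : ∀ a, c a ≤ 1) (hs : ∑ a, c a = k) :
    ∑ a, mu a * c a ≤ psum mu k := by
  unfold psum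
  set tau := mu ⟨k, hk⟩ with htau
  have hcount : ∑ a : Fin n, (if (a : ℕ) < k then (1 : ℝ) else 0) = k := by
    rw [Finset.sum_ite, Finset.sum_const_zero, add_zero, Finset.sum_const, nsmul_eq_mul, mul_one]
    congr 1
    have : (Finset.univ.filter fun a : Fin n => (a : ℕ) < k) = Finset.Iio ⟨k, hk⟩ := by
      ext a
      simp [Fin.lt_def]
    rw [this, Fin.card_Iio]
  have key : ∀ a : Fin n, mu a * c a - (if (a : ℕ) < k then mu a else 0) ≤
      tau * (c a - (if (a : ℕ) < k then (1 : ℝ) else 0)) := by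
    intro a
    split_ifs with h
    · have h2 : tau ≤ mu a := hmu (by rw [Fin.le_def]; exact h.le)
      nlinarith [h1 a, h0 a]
    · have h2 : mu a ≤ tau := hmu (by rw [Fin.le_def]; exact not_lt.1 h)
      nlinarith [h1 a, h0 a]
  have hsum := Finset.sum_le_sum fun a (_ : a ∈ Finset.univ) => key a
  rw [Finset.sum_sub_distrib, ← Finset.mul_sum, Finset.sum_sub_distrib, hs, hcount, sub_self,
    mul_zero] at hsum
  linarith

/-- Ky Fan's inequality -/
lemma kyfan {n : ℕ} {M : Matrix (Fin n) (Fin n) ℝ} (hM : M.IsHermitian)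
    (u : OrthonormalBasis (Fin n) ℝ (EuclideanSpace ℝ (Fin n))) (s : Finset (Fin n))
    (hs : s.card < n) :
    ∑ i ∈ s, inner ℝ (u i) (Matrix.toEuclideanLin M (u i)) ≤ psum (spec hM) s.card := by
  set b := hM.eigenvectorBasis with hb
  have hsym : ∀ x y : EuclideanSpace ℝ (Fin n), inner ℝ x (Matrix.toEuclideanLin M y) =
      inner ℝ (Matrix.toEuclideanLin M x) y := by
    intro x y
    exact ((Matrix.isSymmetric_toEuclideanLin_iff).2 hM x y).symm
  have heig : ∀ j, Matrix.toEuclideanLin M (b j) = hM.eigenvalues j • b j := by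
    intro j
    have := hM.mulVec_eigenvectorBasis j
    ext v
    have h2 := congrFun this v
    simpa [Matrix.toLpLin_apply] using h2
  have h1 : ∀ x : EuclideanSpace ℝ (Fin n), inner ℝ x (Matrix.toEuclideanLin M x) =
      ∑ j, hM.eigenvalues j * (inner ℝ (b j) x) ^ 2 := by
    intro x
    rw [← b.sum_inner_mul_inner x (Matrix.toEuclideanLin M x)]
    refine Finset.sum_congr rfl fun j _ => ?_
    rw [hsym, heig, real_inner_smul_left, real_inner_comm x (b j)]
    ring
  have hc1 : ∀ j, ∑ i ∈ s, (inner ℝ (b j) (u i)) ^ 2 ≤ 1 := by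
    intro j
    have h2 : ∑ i, (inner ℝ (b j) (u i)) ^ 2 = (1 : ℝ) := by
      have h3 := u.sum_inner_mul_inner (b j) (b j)
      rw [real_inner_self_eq_norm_sq, b.norm_eq_one, one_pow] at h3
      rw [← h3]
      refine Finset.sum_congr rfl fun i _ => ?_
      rw [real_inner_comm (b j) (u i)]
      ring
    rw [← h2]
    exact Finset.sum_le_sum_of_subset_of_nonneg (Finset.subset_univ _) fun i _ _ => sq_nonneg _
  have hcs : ∑ j, ∑ i ∈ s, (inner ℝ (b j) (u i)) ^ 2 = (s.card : ℝ) := by
    rw [Finset.sum_comm]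
    have h2 : ∀ i ∈ s, ∑ j, (inner ℝ (b j) (u i)) ^ 2 = (1 : ℝ) := by
      intro i _
      have h3 := b.sum_inner_mul_inner (u i) (u i)
      rw [real_inner_self_eq_norm_sq, u.norm_eq_one, one_pow] at h3
      rw [← h3]
      refine Finset.sum_congr rfl fun j _ => ?_
      rw [real_inner_comm (u i) (b j)]
      ring
    rw [Finset.sum_congr rfl h2]
    simp
  calc ∑ i ∈ s, inner ℝ (u i) (Matrix.toEuclideanLin M (u i))
      = ∑ i ∈ s, ∑ j, hM.eigenvalues j * (inner ℝ (b j) (u i)) ^ 2 :=
        Finset.sum_congr rfl fun i _ => h1 (u i)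
    _ = ∑ j, hM.eigenvalues j * ∑ i ∈ s, (inner ℝ (b j) (u i)) ^ 2 := by
        rw [Finset.sum_comm]
        exact Finset.sum_congr rfl fun j _ => by rw [Finset.mul_sum]
    _ = ∑ a, spec hM a * ∑ i ∈ s, (inner ℝ (b (ix n a)) (u i)) ^ 2 := by
        rw [← Equiv.sum_comp (ix n)]
        exact Finset.sum_congr rfl fun a _ => by rw [spec_eq]
    _ ≤ psum (spec hM) s.card := by
        refine rearr _ (spec_antitone hM) _ _ hs (fun a => Finset.sum_nonneg fun i _ => sq_nonneg _)
          (fun a => hc1 _) ?_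
        rw [← hcs]
        exact Equiv.sum_comp (ix n) fun j => ∑ i ∈ s, (inner ℝ (b j) (u i)) ^ 2

/-- the quadratic form of the weighted Laplacian -/
lemma quad {n : ℕ} (W : Matrix (Fin n) (Fin n) ℝ) (x : EuclideanSpace ℝ (Fin n)) :
    inner ℝ x (Matrix.toEuclideanLin (wlap W) x) = ∑ v, ∑ w, W v w * (x v - x w) * x v := by
  have : inner ℝ x (Matrix.toEuclideanLin (wlap W) x) = ∑ v, (wlap W).mulVec x v * x v := by
    rw [Matrix.toLpLin_apply]
    simp [PiLp.inner_apply]
  rw [this]
  refine Finset.sum_congr rfl fun v _ => ?_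
  rw [wlap_apply, Finset.sum_mul]

lemma quad_nonneg {n : ℕ} (W : Matrix (Fin n) (Fin n) ℝ) (hs : ∀ i j, W i j = W j i)
    (h0 : ∀ i j, 0 ≤ W i j) (x : Fin n → ℝ) : 0 ≤ ∑ v, ∑ w, W v w * (x v - x w) * x v := by
  have h1 : ∑ v, ∑ w, W v w * (x v - x w) * x v = ∑ v, ∑ w, W v w * (x w - x v) * x w := by
    rw [Finset.sum_comm]
    refine Finset.sum_congr rfl fun v _ => Finset.sum_congr rfl fun w _ => ?_
    rw [hs]
  have h2 : (∑ v, ∑ w, W v w * (x v - x w) * x v) + ∑ v, ∑ w, W v w * (x w - x v) * x w =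
      ∑ v, ∑ w, W v w * (x v - x w) ^ 2 := by
    rw [← Finset.sum_add_distrib]
    refine Finset.sum_congr rfl fun v _ => ?_
    rw [← Finset.sum_add_distrib]
    refine Finset.sum_congr rfl fun w _ => ?_
    ring
  have h3 : 0 ≤ ∑ v, ∑ w, W v w * (x v - x w) ^ 2 :=
    Finset.sum_nonneg fun v _ => Finset.sum_nonneg fun w _ => mul_nonneg (h0 v w) (sq_nonneg _)
  linarith

/-- the full sum is the trace -/
lemma quad_trace {n : ℕ} (W : Matrix (Fin n) (Fin n) ℝ) (hd : ∀ i, W i i = 0)
    (u : OrthonormalBasis (Fin n) ℝ (EuclideanSpace ℝ (Fin n))) :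
    ∑ i, inner ℝ (u i) (Matrix.toEuclideanLin (wlap W) (u i)) = ∑ v, ∑ w, W v w := by
  rw [← LinearMap.trace_eq_sum_inner, LinearMap.trace_eq_sum_inner _
    (EuclideanSpace.basisFun (Fin n) ℝ)]
  refine Finset.sum_congr rfl fun v _ => ?_
  rw [quad]
  rw [Finset.sum_eq_single v]
  · refine Finset.sum_congr rfl fun w _ => ?_
    by_cases h : w = v
    · subst h
      rw [hd]
      ring
    · simp [h]
  · intro w _ hw
    refine Finset.sum_eq_zero fun x _ => ?_
    simp [hw]
  · simp

/-- choice of the largest values -/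
lemma largest {α : Type*} [DecidableEq α] (S : Finset α) (f : α → ℝ) (hf : ∀ a, 0 ≤ f a) (K : ℕ)
    (hK : K ≤ S.card) : ∃ P ⊆ S, P.card = K ∧ ∃ t : ℝ, 0 ≤ t ∧ (∀ p ∈ P, t ≤ f p) ∧
      ∀ p ∈ S, p ∉ P → f p ≤ t := by
  induction K with
  | zero =>
    refine ⟨∅, by simp, by simp, ∑ p ∈ S, f p, Finset.sum_nonneg fun p _ => hf p, by simp, ?_⟩
    intro p hp _
    exact Finset.single_le_sum (fun q _ => hf q) hp
  | succ K ih =>
    obtain ⟨P, hPS, hPc, t, ht, h1, h2⟩ := ih (by omega)
    have hne : (S \ P).Nonempty := by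
      rw [← Finset.card_pos, Finset.card_sdiff_of_subset hPS]
      omega
    obtain ⟨q, hq, hmax⟩ := Finset.exists_max_image (S \ P) f hne
    rw [Finset.mem_sdiff] at hq
    refine ⟨insert q P, ?_, ?_, f q, hf q, ?_, ?_⟩
    · intro p hp
      rcases Finset.mem_insert.1 hp with rfl | hp
      · exact hq.1
      · exact hPS hp
    · rw [Finset.card_insert_of_notMem hq.2, hPc]
    · intro p hp
      rcases Finset.mem_insert.1 hp with rfl | hp
      · exact le_rfl
      · exact (h2 q hq.1 hq.2).trans (h1 p hp)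
    · intro p hp hpP
      refine hmax p ?_
      rw [Finset.mem_sdiff]
      exact ⟨hp, fun h => hpP (Finset.mem_insert_of_mem h)⟩

/-- sums over ordered pairs -/
lemma sum_pairs {n : ℕ} (W : Matrix (Fin n) (Fin n) ℝ) (hs : ∀ i j, W i j = W j i)
    (hd : ∀ i, W i i = 0) :
    ∑ v, ∑ w, W v w = 2 * ∑ i, ∑ j, (if i < j then W i j else 0) := by
  have h1 : ∀ v w, W v w = (if v < w then W v w else 0) + (if w < v then W w v else 0) := by
    intro v w
    rcases lt_trichotomy v w with h | h | h
    · rw [if_pos h, if_neg (not_lt.2 h.le), add_zero]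
    · subst h
      simp [hd]
    · rw [if_neg (not_lt.2 h.le), if_pos h, zero_add, hs]
  have h2 : ∑ v, ∑ w, (if w < v then W w v else 0) = ∑ i, ∑ j, (if i < j then W i j else 0) :=
    Finset.sum_comm
  calc ∑ v, ∑ w, W v w = ∑ v, ∑ w, ((if v < w then W v w else 0) + (if w < v then W w v else 0)) :=
        Finset.sum_congr rfl fun v _ => Finset.sum_congr rfl fun w _ => h1 v w
    _ = (∑ i, ∑ j, (if i < j then W i j else 0)) + ∑ v, ∑ w, (if w < v then W w v else 0) := by
        simp only [Finset.sum_add_distrib]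
    _ = 2 * ∑ i, ∑ j, (if i < j then W i j else 0) := by rw [h2]; ring

/-- Brouwer's inequality for weights in `[0,1]` and an arbitrary orthonormal family -/
lemma brouwer_unit {n : ℕ} (W : Matrix (Fin n) (Fin n) ℝ) (hs : ∀ i j, W i j = W j i)
    (hd : ∀ i, W i i = 0) (h0 : ∀ i j, 0 ≤ W i j) (h1 : ∀ i j, W i j ≤ 1)
    (u : OrthonormalBasis (Fin n) ℝ (EuclideanSpace ℝ (Fin n))) (s : Finset (Fin n))
    (hc : s.card < n) :
    ∑ i ∈ s, inner ℝ (u i) (Matrix.toEuclideanLin (wlap W) (u i)) ≤
      (∑ i, ∑ j, (if i < j then W i j else 0)) + ((s.card + 1).choose 2 : ℕ) := by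
  have hW : W.IsSymm := by
    ext i j
    exact hs j i
  have hL := wlap_hermitian W hW
  have h2 := kyfan hL u s hc
  have h3 := weighted_core W hW hd h0 h1 hL s.card s.card le_rfl hc
  rw [sum_spec W hd hL, sum_pairs W hs hd] at h3
  have h4 : (((s.card + 1).choose 2 : ℕ) : ℝ) = (s.card : ℝ) * ((s.card : ℝ) + 1) / 2 := by
    rw [Nat.cast_choose_two]
    push_cast
    ring
  rw [h4]
  linarith

theorem main (n : ℕ) (A : Matrix (Fin n) (Fin n) ℝ) (hA : A.IsSymm) (h0 : ∀ i j, 0 ≤ A i j)
    (hd : ∀ i, A i i = 0) (hL : (wlap A).IsHermitian) (k : ℕ) (hk : 1 ≤ k) (hkn : k ≤ n - 1)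
    (s : Finset (Fin n)) (hs : s.card = k) :
    ∃ P : Finset (Fin n × Fin n), P.card = (k + 1).choose 2 ∧ (∀ p ∈ P, p.1 < p.2) ∧
      ∑ i ∈ s, hL.eigenvalues i ≤
        (∑ i, ∑ j, if i < j then A i j else 0) + ∑ p ∈ P, A p.1 p.2 := by
  have hsym : ∀ i j, A i j = A j i := fun i j => by
    conv_lhs => rw [← hA.eq]
    rfl
  set S : Finset (Fin n × Fin n) := Finset.univ.filter fun p => p.1 < p.2 with hS
  have hScard : (k + 1).choose 2 ≤ S.card := by
    have e1 : S.card = ∑ j : Fin n, (j : ℕ) := by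
      rw [hS, Finset.card_filter, ← Finset.univ_product_univ, Finset.sum_product_right]
      refine Finset.sum_congr rfl fun j _ => ?_
      rw [← Finset.card_filter]
      have : (Finset.univ.filter fun i : Fin n => i < j) = Finset.Iio j := by
        ext a
        simp
      rw [this, Fin.card_Iio]
    rw [e1, Fin.sum_univ_eq_sum_range (fun j => j) n, Finset.sum_range_id, ← Nat.choose_two_right]
    exact Nat.choose_le_choose 2 (by omega)
  obtain ⟨P, hPS, hPc, t, ht, h1, h2⟩ := largest S (fun p => A p.1 p.2) (fun p => h0 _ _) _ hScard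
  have hPlt : ∀ p ∈ P, p.1 < p.2 := fun p hp => by
    have := hPS hp
    rw [hS, Finset.mem_filter] at this
    exact this.2
  refine ⟨P, hPc, hPlt, ?_⟩
  -- the two parts
  let B : Matrix (Fin n) (Fin n) ℝ := fun i j => min (A i j) t
  let C : Matrix (Fin n) (Fin n) ℝ := fun i j => A i j - min (A i j) t
  have hB0 : ∀ i j, 0 ≤ B i j := fun i j => le_min (h0 i j) ht
  have hC0 : ∀ i j, 0 ≤ C i j := fun i j => sub_nonneg.2 (min_le_left _ _)
  have hBs : ∀ i j, B i j = B j i := fun i j => by simp only [B]; rw [hsym]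
  have hCs : ∀ i j, C i j = C j i := fun i j => by simp only [C]; rw [hsym]
  have hBd : ∀ i, B i i = 0 := fun i => by simp only [B]; rw [hd, min_eq_left ht]
  have hCd : ∀ i, C i i = 0 := fun i => by simp only [C]; rw [hd, min_eq_left ht, sub_zero]
  set u := hL.eigenvectorBasis with hu
  -- eigenvalues as quadratic forms
  have he : ∀ i, hL.eigenvalues i = inner ℝ (u i) (Matrix.toEuclideanLin (wlap A) (u i)) := by
    intro i
    have h3 : Matrix.toEuclideanLin (wlap A) (u i) = hL.eigenvalues i • u i := by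
      have := hL.mulVec_eigenvectorBasis i
      ext v
      have h4 := congrFun this v
      simpa [Matrix.toLpLin_apply] using h4
    rw [h3, real_inner_smul_right, real_inner_self_eq_norm_sq, u.norm_eq_one]
    ring
  have hsplit : ∀ x : EuclideanSpace ℝ (Fin n),
      inner ℝ x (Matrix.toEuclideanLin (wlap A) x) =
      inner ℝ x (Matrix.toEuclideanLin (wlap B) x) +
        inner ℝ x (Matrix.toEuclideanLin (wlap C) x) := by
    intro x
    rw [quad, quad, quad, ← Finset.sum_add_distrib]
    refine Finset.sum_congr rfl fun v _ => ?_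
    rw [← Finset.sum_add_distrib]
    refine Finset.sum_congr rfl fun w _ => ?_
    simp only [B, C]
    ring
  have hCpart : ∑ i ∈ s, inner ℝ (u i) (Matrix.toEuclideanLin (wlap C) (u i)) ≤
      2 * ∑ i, ∑ j, (if i < j then C i j else 0) := by
    rw [← sum_pairs C hCs hCd, ← quad_trace C hCd u]
    refine Finset.sum_le_sum_of_subset_of_nonneg (Finset.subset_univ _) fun i _ _ => ?_
    rw [quad]
    exact quad_nonneg C hCs hC0 _
  have hBpart : ∑ i ∈ s, inner ℝ (u i) (Matrix.toEuclideanLin (wlap B) (u i)) ≤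
      (∑ i, ∑ j, (if i < j then B i j else 0)) + t * ((k + 1).choose 2 : ℕ) := by
    rcases ht.eq_or_lt with h | h
    · have hBz : ∀ i j, B i j = 0 := fun i j => by
        simp only [B]
        rw [← h, min_eq_right (h0 i j)]
      have : ∀ i ∈ s, inner ℝ (u i) (Matrix.toEuclideanLin (wlap B) (u i)) = (0 : ℝ) := by
        intro i _
        rw [quad]
        refine Finset.sum_eq_zero fun v _ => Finset.sum_eq_zero fun w _ => ?_
        rw [hBz]
        ring
      rw [Finset.sum_eq_zero this, ← h, zero_mul, add_zero]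
      exact Finset.sum_nonneg fun i _ => Finset.sum_nonneg fun j _ => by
        split_ifs
        · exact hB0 i j
        · exact le_rfl
    · let D : Matrix (Fin n) (Fin n) ℝ := fun i j => t⁻¹ * B i j
      have hD0 : ∀ i j, 0 ≤ D i j := fun i j => mul_nonneg (inv_nonneg.2 ht) (hB0 i j)
      have hD1 : ∀ i j, D i j ≤ 1 := fun i j => by
        simp only [D]
        rw [inv_mul_le_iff₀ h, mul_one]
        exact min_le_right _ _
      have hDs : ∀ i j, D i j = D j i := fun i j => by simp only [D]; rw [hBs]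
      have hDd : ∀ i, D i i = 0 := fun i => by simp only [D]; rw [hBd, mul_zero]
      have h5 := brouwer_unit D hDs hDd hD0 hD1 u s (by omega)
      rw [hs] at h5
      have h6 : ∀ x : EuclideanSpace ℝ (Fin n),
          inner ℝ x (Matrix.toEuclideanLin (wlap B) x) =
          t * inner ℝ x (Matrix.toEuclideanLin (wlap D) x) := by
        intro x
        rw [quad, quad, Finset.mul_sum]
        refine Finset.sum_congr rfl fun v _ => ?_
        rw [Finset.mul_sum]
        refine Finset.sum_congr rfl fun w _ => ?_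
        simp only [D]
        field_simp
      have h7 : (∑ i, ∑ j, (if i < j then B i j else 0)) =
          t * ∑ i, ∑ j, (if i < j then D i j else 0) := by
        rw [Finset.mul_sum]
        refine Finset.sum_congr rfl fun v _ => ?_
        rw [Finset.mul_sum]
        refine Finset.sum_congr rfl fun w _ => ?_
        simp only [D]
        split_ifs
        · field_simp
        · ring
      rw [Finset.sum_congr rfl fun i _ => h6 (u i), ← Finset.mul_sum, h7, ← mul_add]
      exact mul_le_mul_of_nonneg_left h5 ht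
  have hsum : (∑ i, ∑ j, (if i < j then A i j else 0)) =
      (∑ i, ∑ j, (if i < j then B i j else 0)) + ∑ i, ∑ j, (if i < j then C i j else 0) := by
    rw [← Finset.sum_add_distrib]
    refine Finset.sum_congr rfl fun v _ => ?_
    rw [← Finset.sum_add_distrib]
    refine Finset.sum_congr rfl fun w _ => ?_
    simp only [B, C]
    split_ifs <;> ring
  have hCP : ∑ i, ∑ j, (if i < j then C i j else 0) = ∑ p ∈ P, A p.1 p.2 - t * P.card := by
    rw [← Finset.sum_product', ← Finset.sum_filter]
    have h8 : ∑ p ∈ (Finset.univ ×ˢ Finset.univ).filter (fun p : Fin n × Fin n => p.1 < p.2),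
        C p.1 p.2 = ∑ p ∈ P, C p.1 p.2 := by
      refine (Finset.sum_subset ?_ ?_).symm
      · intro p hp
        simp [hPlt p hp]
      · intro p hp hpP
        have : p ∈ S := by
          rw [hS, Finset.mem_filter]
          rw [Finset.mem_filter] at hp
          exact ⟨Finset.mem_univ _, hp.2⟩
        have h9 := h2 p this hpP
        simp only [C]
        rw [min_eq_left h9, sub_self]
    rw [h8, mul_comm, ← nsmul_eq_mul, ← Finset.sum_const, ← Finset.sum_sub_distrib]
    refine Finset.sum_congr rfl fun p hp => ?_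
    simp only [C]
    rw [min_eq_right (h1 p hp)]
  rw [hPc] at hCP
  rw [Finset.sum_congr rfl fun i _ => he i, Finset.sum_congr rfl fun i _ => hsplit (u i),
    Finset.sum_add_distrib, hsum]
  linarith

end Pool.Agent.Q280.WB
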